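import Mathlib
import Pool.Graph.R_seed8.Helper707.Num
import Pool.Graph.R_seed8.Helper707.Idem

/-!
Definitions for the word problem in varieties of algebras containing the lower triangular `4 × 4`
matrices with equal corners (three generators, one relation).
-/

namespace Pool.Agent.Helper8.MG

open Finset Polynomial Pool.Agent.Helper707.Idem
open Pool.Agent.Helper707.Rel (Sys)

/-- columns -/
inductive Col
  | k (i : ℕ)
  | d (r : ℕ)
  deriving DecidableEq

/-- the vertices -/
inductive V
  | al
  | b (i : ℕ)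
  | c (j : Col)
  deriving DecidableEq

/-- the numbers attached to the vertices -/
def num : V → ℕ
  | .al => 1
  | .b i => 2 + 3 * i
  | .c (.k i) => 3 + 3 * i
  | .c (.d r) => 4 + 3 * r

/-- the columns in use -/
def cols (m : ℕ) : Finset Col := (range (2 * m + 1)).image Col.k ∪ (range m).image Col.d

/-- the vertices in use -/
def S (m : ℕ) : Finset V := insert V.al ((range (2 * m)).image V.b ∪ (cols m).image V.c)

/-- bound for the numbers of the vertices in use -/
def Rr (m : ℕ) : ℕ := 6 * m + 3

theorem num_inj {p q : V} (h : num p = num q) : p = q := by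
  cases p with
  | al =>
    cases q with
    | al => rfl
    | b i => simp only [num] at h; omega
    | c j => cases j <;> (simp only [num] at h; omega)
  | b i =>
    cases q with
    | al => simp only [num] at h; omega
    | b i' => simp only [num] at h; congr 1; omega
    | c j => cases j <;> (simp only [num] at h; omega)
  | c j =>
    cases q with
    | al => cases j <;> (simp only [num] at h; omega)
    | b i' => cases j <;> (simp only [num] at h; omega)
    | c j' =>
      cases j <;> cases j' <;> simp only [num] at h <;> first | omega | (congr 2; omega)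

theorem num_pos (p : V) : 0 < num p := by
  cases p with
  | al => simp [num]
  | b i => simp only [num]; omega
  | c j => cases j <;> (simp only [num]; omega)

theorem mem_k {m i : ℕ} : Col.k i ∈ cols m ↔ i < 2 * m + 1 := by simp [cols]
theorem mem_d {m r : ℕ} : Col.d r ∈ cols m ↔ r < m := by simp [cols]
theorem mem_al (m : ℕ) : V.al ∈ S m := by simp [S]
theorem mem_b {m i : ℕ} : V.b i ∈ S m ↔ i < 2 * m := by simp [S]
theorem mem_c {m : ℕ} {j : Col} : V.c j ∈ S m ↔ j ∈ cols m := by simp [S]

theorem num_le {m : ℕ} {p : V} (h : p ∈ S m) : num p ≤ Rr m := by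
  unfold Rr
  cases p with
  | al => simp [num]
  | b i => rw [mem_b] at h; simp only [num]; omega
  | c j =>
    rw [mem_c] at h
    cases j with
    | k i => rw [mem_k] at h; simp only [num]; omega
    | d r => rw [mem_d] at h; simp only [num]; omega

/-- transfer rates -/
def A (Y : Sys) (i : ℕ) : Col → ℕ
  | .k _ => 1
  | .d _ => if i % 2 = 0 then Y.m else Y.a (i / 2)

/-- coefficient, zero exactly for a halting residue -/
def kap (Y : Sys) (r : ℕ) : ℕ := if Y.H r then 0 else 1

section ring

variable {B : Type*} [Ring B]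

/-- Peirce component -/
def K (e : V → B) (x : B) (p q : V) : B := e p * x * e q

/-- the type relator of a column: `α₁` for `k` even, `α₂` for `k` odd, `α₁ - α₂` for `d` -/
def ty (e : V → B) (x y : B) : Col → B
  | .k i => if i % 2 = 0 then K e x .al .al else K e y .al .al
  | .d _ => K e x .al .al - K e y .al .al

/-- the relators -/
def rel (Y : Sys) (e : V → B) (x y : B) : V → V → B
  | .b i, .c j =>
      (K e x (.b i) (.b i)) ^ (A Y i j) * K e x (.b i) (.c j)
        - K e x (.b i) (.c j) * K e x (.c j) (.c j)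
  | .b i, .al =>
      K e x (.b i) (.c (.k i)) * K e x (.c (.k i)) .al
        + K e x (.b i) (.c (.k (i + 1))) * K e x (.c (.k (i + 1))) .al
        - K e x (.b i) (.c (.d (i / 2))) * K e x (.c (.d (i / 2))) .al
  | .c j, .al => K e x (.c j) .al * ty e x y j
  | .al, .c (.k (i + 1)) =>
      if i + 1 < 2 * Y.m then
        K e x .al (.b i) * K e x (.b i) (.c (.k (i + 1)))
          - K e x .al (.b (i + 1)) * K e x (.b (i + 1)) (.c (.k (i + 1)))
      else 0
  | .al, .c (.d r) =>
      K e x .al (.b (2 * r)) * (K e x (.b (2 * r)) (.b (2 * r))) ^ r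
          * K e x (.b (2 * r)) (.c (.d r))
        - kap Y r • (K e x .al (.b (2 * r + 1))
          * (K e x (.b (2 * r + 1)) (.b (2 * r + 1))) ^ (Y.e r)
          * K e x (.b (2 * r + 1)) (.c (.d r)))
  | _, _ => 0

/-- the words, `w` stands for `α₁` or `α₂` -/
def Wd (e : V → B) (x w : B) (i : ℕ) (j : Col) (n n' : ℕ) : B :=
  K e x .al (.b i) * (K e x (.b i) (.b i)) ^ n * K e x (.b i) (.c j)
    * (K e x (.c j) (.c j)) ^ n' * K e x (.c j) .al * w

/-- the relations -/
structure Rels (Y : Sys) (e : V → B) (x y : B) : Prop where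
  T : ∀ i < 2 * Y.m, ∀ j ∈ cols Y.m, (K e x (.b i) (.b i)) ^ (A Y i j) * K e x (.b i) (.c j)
        = K e x (.b i) (.c j) * K e x (.c j) (.c j)
  Rw : ∀ i < 2 * Y.m, K e x (.b i) (.c (.k i)) * K e x (.c (.k i)) .al
        + K e x (.b i) (.c (.k (i + 1))) * K e x (.c (.k (i + 1))) .al
        = K e x (.b i) (.c (.d (i / 2))) * K e x (.c (.d (i / 2))) .al
  Ty : ∀ j ∈ cols Y.m, K e x (.c j) .al * ty e x y j = 0
  Ck : ∀ i, i + 1 < 2 * Y.m → K e x .al (.b i) * K e x (.b i) (.c (.k (i + 1)))
        = K e x .al (.b (i + 1)) * K e x (.b (i + 1)) (.c (.k (i + 1)))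
  Cd : ∀ r < Y.m, K e x .al (.b (2 * r)) * (K e x (.b (2 * r)) (.b (2 * r))) ^ r
          * K e x (.b (2 * r)) (.c (.d r))
        = kap Y r • (K e x .al (.b (2 * r + 1))
          * (K e x (.b (2 * r + 1)) (.b (2 * r + 1))) ^ (Y.e r)
          * K e x (.b (2 * r + 1)) (.c (.d r)))

end ring

/-! ### the module -/

/-- basis of the module; `p q` are the exponents of the two loops `α₁, α₂` at `al` -/
inductive Bs
  | fin (p q : ℕ)
  | c (j : Col) (n' p q : ℕ)
  | b (i : ℕ) (j : Col) (n n' p q : ℕ)
  | t (i : ℕ) (j : Col) (n n' p q : ℕ)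

/-- vertex of a basis element -/
def vert : Bs → V
  | .fin _ _ => .al
  | .c j _ _ _ => .c j
  | .b i _ _ _ _ _ => .b i
  | .t _ _ _ _ _ _ => .al

/-- eigenvalue of a vertex -/
def eigV (m : ℕ) (p : V) : ℕ := if p ∈ S m then num p else 0

/-- eigenvalue of a basis element -/
def eig (m : ℕ) (β : Bs) : ℕ := eigV m (vert β)

variable (F : Type*) [Field F]

/-- one basis vector -/
noncomputable def bv (β : Bs) : Bs →₀ F := Finsupp.single β 1

/-- images of the basis vectors under `x` -/
noncomputable def xb (m : ℕ) : Bs → (Bs →₀ F)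
  | .fin p q => bv F (.fin (p + 1) q) + ∑ j ∈ cols m, bv F (.c j 0 p q)
  | .c j n' p q => bv F (.c j (n' + 1) p q) + ∑ i ∈ range (2 * m), bv F (.b i j 0 n' p q)
  | .b i j n n' p q => bv F (.b i j (n + 1) n' p q) + bv F (.t i j n n' p q)
  | .t i j n n' p q => bv F (.t i j n n' (p + 1) q)

/-- images of the basis vectors under `y` -/
noncomputable def yb : Bs → (Bs →₀ F)
  | .fin p q => bv F (.fin p (q + 1))
  | .c _ _ _ _ => 0
  | .b _ _ _ _ _ _ => 0
  | .t i j n n' p q => bv F (.t i j n n' p (q + 1))

/-- the generator `x` -/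
noncomputable def Xop (m : ℕ) : Module.End F (Bs →₀ F) := Finsupp.linearCombination F (xb F m)

/-- the generator `y` -/
noncomputable def Yop : Module.End F (Bs →₀ F) := Finsupp.linearCombination F (yb F)

/-- the generator `z` -/
noncomputable def Zop (m : ℕ) : Module.End F (Bs →₀ F) :=
  Finsupp.linearCombination F (fun β => (eig m β : F) • bv F β)

/-- the three generators -/
noncomputable def gens (m : ℕ) : Fin 3 → Module.End F (Bs →₀ F) := ![Zop F m, Xop F m, Yop F]

/-- the idempotents on the module -/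
noncomputable def pr [CharZero F] (m M : ℕ) (p : V) : Module.End F (Bs →₀ F) :=
  ee F (Rr m) M (Zop F m) (num p)

variable {F}

/-- the linear condition of a column on functions of the two exponents -/
def TY (f : ℕ → ℕ → F) : Col → Prop
  | .k i => if i % 2 = 0 then ∀ p q, f (p + 1) q = 0 else ∀ p q, f p (q + 1) = 0
  | .d _ => ∀ p q, f (p + 1) q = f p (q + 1)

/-- weight functions compatible with the relations -/
structure IsW (Y : Sys) (w : Bs → F) : Prop where
  Tb : ∀ i j n n' p q, w (.b i j (n + A Y i j) n' p q) = w (.b i j n (n' + 1) p q)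
  Tt : ∀ i j n n' p q, w (.t i j (n + A Y i j) n' p q) = w (.t i j n (n' + 1) p q)
  tyc : ∀ j n', TY (fun p q => w (.c j n' p q)) j
  tyb : ∀ i j n n', TY (fun p q => w (.b i j n n' p q)) j
  tyt : ∀ i j n n', TY (fun p q => w (.t i j n n' p q)) j
  rwb : ∀ i n p q, w (.b i (.k i) n 0 p q) + w (.b i (.k (i + 1)) n 0 p q)
    = w (.b i (.d (i / 2)) n 0 p q)
  rwt : ∀ i n p q, w (.t i (.k i) n 0 p q) + w (.t i (.k (i + 1)) n 0 p q)
    = w (.t i (.d (i / 2)) n 0 p q)
  ck : ∀ i n' p q, i + 1 < 2 * Y.m →
    w (.t i (.k (i + 1)) 0 n' p q) = w (.t (i + 1) (.k (i + 1)) 0 n' p q)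
  cd : ∀ r n' p q, r < Y.m → w (.t (2 * r) (.d r) r n' p q)
    = (kap Y r : F) * w (.t (2 * r + 1) (.d r) (Y.e r) n' p q)

/-- pairing -/
noncomputable def pair (w : Bs → F) : (Bs →₀ F) →ₗ[F] F := Finsupp.linearCombination F w

theorem pair_bv (w : Bs → F) (β : Bs) : pair w (bv F β) = w β := by simp [pair, bv]

variable (F) in
/-- the vectors killed by all weights -/
noncomputable def G (Y : Sys) : Submodule F (Bs →₀ F) where
  carrier := {y | ∀ w : Bs → F, IsW Y w → pair w y = 0}
  add_mem' := by
    intro a b ha hb w hw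
    rw [map_add, ha w hw, hb w hw, add_zero]
  zero_mem' := by intro w _; simp
  smul_mem' := by
    intro c y hy w hw
    rw [map_smul, hy w hw, smul_zero]

theorem mem_G {Y : Sys} {y : Bs →₀ F} : y ∈ G F Y ↔ ∀ w : Bs → F, IsW Y w → pair w y = 0 := Iff.rfl

/-- a column is adjacent to a row -/
def adj (i : ℕ) : Col → Prop
  | .k l => l = i ∨ l = i + 1
  | .d r => r = i / 2

/-- the surviving exponents of a column -/
def lev (p q : ℕ) : Col → Prop
  | .k l => if l % 2 = 0 then p = 0 ∧ q = 1 else p = 1 ∧ q = 0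
  | .d _ => p + q = 1

open Classical in
/-- the distinguishing weight -/
noncomputable def lam (F : Type*) [Field F] (Y : Sys) : Bs → F
  | .t i j n n' p q => if adj i j ∧ lev p q j ∧ ¬ Y.Halts (n + A Y i j * n') then 1 else 0
  | _ => 0

/-! ### the single relator and the words -/

section alg

variable (F)
variable [CharZero F] {B : Type*} [Ring B] [Algebra F B]

/-- idempotents -/
noncomputable def el (Y : Sys) (M : ℕ) (z : B) (p : V) : B := ee F (Rr Y.m) M z (num p)

/-- the sum of all off diagonal relators -/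
noncomputable def tel (Y : Sys) (M : ℕ) (z x y : B) : B :=
  Theta F (Rr Y.m) M (S Y.m) num z (rel Y (el F Y M z) x y)

/-- the single relator -/
noncomputable def fel (Y : Sys) (M : ℕ) (z x y : B) : B :=
  aeval z (P F (Rr Y.m)) + (z * tel F Y M z x y - tel F Y M z x y * z)

/-- the words to be decided -/
noncomputable def gel (Y : Sys) (z x : B) (N : ℕ) : B :=
  aeval z (IF F (Rr Y.m) (num .al)) * x * (aeval z (IF F (Rr Y.m) (num (.b 0))) * x) ^ (N + 1)
    * aeval z (IF F (Rr Y.m) (num (.c (.d 0)))) * x
    * aeval z (IF F (Rr Y.m) (num .al)) * x * aeval z (IF F (Rr Y.m) (num .al))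

end alg

/-! ### triangular matrices with equal corners -/

section tri

variable {R : Type*} [CommRing R]

/-- lower triangular `4 × 4` matrices with equal first and last diagonal entry -/
structure Tri (A : Matrix (Fin 4) (Fin 4) R) : Prop where
  low : ∀ i j : Fin 4, i < j → A i j = 0
  eq : A 0 0 = A 3 3

end tri

end Pool.Agent.Helper8.MG
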