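import Mathlib
import Pool.Agent.Helper8.MG.Defs
import Pool.Graph.R_seed8.Y555.Mag.Alg

/-!
Statements of the parts.
-/

namespace Pool.Agent.Helper8.MG

open Finset Polynomial Pool.Agent.Helper707.Idem
open Pool.Agent.Helper707.Rel (Sys)
open Pool.Agent.Y555.Mag.Alg (vals NilExp)
open Pool.Agent.H682R2.StdNil (std aug)

universe u

/-- ROF: the sandwiched relators give the relations. Template: `Helper707.Rel.rels_of`. -/
def S_ROF : Prop := ∀ (Y : Sys) (B : Type u) [Ring B] (e : V → B) (x y : B),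
  (∀ p ∈ S Y.m, e p * e p = e p) →
  (∀ p ∈ S Y.m, ∀ q ∈ S Y.m, p ≠ q → e p * rel Y e x y p q * e q = 0) → Rels Y e x y

/-- DER: the word of a halting number vanishes. Template: `Helper707.Rel.Rels.halts_zero`. -/
def S_DER : Prop := ∀ (Y : Sys) (B : Type u) [Ring B] (e : V → B) (x y : B),
  Rels Y e x y → (∀ p ∈ S Y.m, e p * e p = e p) → 0 < Y.m → ∀ N, Y.Halts N →
  Wd e x (K e x .al .al) 0 (.d 0) N 0 = 0

/-- WCL: weights are stable. Template: `Helper707.Model.IsW.xT`, `IsW.zT`. -/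
def S_WCL : Prop := ∀ (F : Type u) [Field F] (Y : Sys) (w : Bs → F), IsW Y w →
  IsW Y (fun β => pair w (xb F Y.m β)) ∧ IsW Y (fun β => pair w (yb F β)) ∧
  IsW Y (fun β => (eig Y.m β : F) * w β)

/-- GST: `G` is a submodule for the three generators and hence for all noncommutative polynomials.
Template: `Helper707.Model.lift_G`. -/
def S_GST : Prop := S_WCL.{u} → ∀ (F : Type u) [Field F] (Y : Sys) (g : FreeAlgebra F (Fin 3))
  (y : Bs →₀ F), y ∈ G F Y → FreeAlgebra.lift F (gens F Y.m) g y ∈ G F Y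

/-- PRB: the idempotents act as projections onto the vertices. Template:
`Helper707.Model.pr_bv`, `P_Zop`. -/
def S_PRB : Prop := ∀ (F : Type u) [Field F] [CharZero F] (m : ℕ),
  aeval (Zop F m) (P F (Rr m)) = 0 ∧
  ∀ (M : ℕ), 0 < M → ∀ p ∈ S m, ∀ β, pr F m M p (bv F β) = if vert β = p then bv F β else 0

/-- RMG: the relators map the module into `G`. Template: `Helper707.Model.rel_mem_G`. -/
def S_RMG : Prop := S_PRB.{u} → ∀ (F : Type u) [Field F] [CharZero F] (Y : Sys) (M : ℕ), 0 < M →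
  ∀ p ∈ S Y.m, ∀ r ∈ S Y.m, ∀ β, vert β = r →
    rel Y (pr F Y.m M) (Xop F Y.m) (Yop F) p r (bv F β) ∈ G F Y

/-- WFI: the action of the word. Template: `Helper707.Model.Wd_fin`. -/
def S_WFI : Prop := S_PRB.{u} → ∀ (F : Type u) [Field F] [CharZero F] (m M : ℕ), 0 < M → 0 < m →
  ∀ N, Wd (pr F m M) (Xop F m) (K (pr F m M) (Xop F m) .al .al) 0 (.d 0) N 0 (bv F (.fin 0 0))
    = bv F (.t 0 (.d 0) N 0 1 0)

/-- LAM: the distinguishing weight is a weight. Template: `Helper707.Model.lam_isW`. -/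
def S_LAM : Prop := ∀ (F : Type u) [Field F] (Y : Sys), IsW Y (lam F Y)

/-- GEQ: the word to be decided is a multiple of `Wd`. Template: `Helper707.Alg.gel_eq`. -/
def S_GEQ : Prop := ∀ (F : Type u) [Field F] [CharZero F] (B : Type u) [Ring B] [Algebra F B]
  (Y : Sys), 0 < Y.m → ∀ (M : ℕ), 0 < M → ∀ (z x : B), aeval z (P F (Rr Y.m)) = 0 → ∀ N : ℕ,
  ∃ s : F, s ≠ 0 ∧ gel F Y z x N
    = s • Wd (el F Y M z) x (K (el F Y M z) x .al .al) 0 (.d 0) N 0

/-- MAP: algebra homomorphisms. Template: `Helper707.Alg.fel_map`. -/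
def S_MAP : Prop := ∀ (F : Type u) [Field F] [CharZero F] (B C : Type u) [Ring B] [Algebra F B]
  [Ring C] [Algebra F C] (φ : B →ₐ[F] C) (Y : Sys) (M : ℕ) (z x y : B),
  φ (tel F Y M z x y) = tel F Y M (φ z) (φ x) (φ y) ∧
  φ (fel F Y M z x y) = fel F Y M (φ z) (φ x) (φ y) ∧
  ∀ N, φ (gel F Y z x N) = gel F Y (φ z) (φ x) N

/-- MEM: soundness. Template: `Y555.Mag.Alg.mem_of_halts`. -/
def S_MEM : Prop := S_ROF.{u} → S_DER.{u} → S_GEQ.{u} → S_MAP.{u} →
  ∀ (F : Type u) [Field F] [CharZero F] (Y : Sys), 0 < Y.m → ∀ (T : Set (FreeAlgebra F ℕ))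
  (g : FreeAlgebra F ℕ), g ∈ T → ∀ M, 0 < M → NilExp F g (Rr Y.m) M → ∀ (w : Bool) (N : ℕ),
  Y.Halts N → gel F Y (FreeAlgebra.ι F (0 : Fin 3)) (FreeAlgebra.ι F 1) N ∈
    TwoSidedIdeal.span ({fel F Y M (FreeAlgebra.ι F (0 : Fin 3)) (FreeAlgebra.ι F 1)
      (FreeAlgebra.ι F 2)} ∪ vals F T 3 w)

/-- EXT: identities of the triangular matrices over `F` hold over commutative algebras.
Template: `Y555.Mag.Ext.tri_ext`. -/
def S_EXT : Prop := ∀ (F : Type u) [Field F] [CharZero F] (r : FreeAlgebra F ℕ),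
  (∀ A : ℕ → Matrix (Fin 4) (Fin 4) F, (∀ i, Tri (A i)) → FreeAlgebra.lift F A r = 0) →
  ∀ (R : Type u) [CommRing R] [Algebra F R] (A : ℕ → Matrix (Fin 4) (Fin 4) R),
    (∀ i, Tri (A i)) → FreeAlgebra.lift F A r = 0

/-- EVM: the identities of the triangular matrices hold on the module. Template:
`H682R2.StdModule` (section on `EV`) and `Y555.Mag.Alg.T_module`. -/
def S_EVM : Prop := S_EXT.{u} → ∀ (F : Type u) [Field F] [CharZero F] (m : ℕ)
  (r : FreeAlgebra F ℕ),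
  (∀ A : ℕ → Matrix (Fin 4) (Fin 4) F, (∀ i, Tri (A i)) → FreeAlgebra.lift F A r = 0) →
  ∀ (p : ℕ → FreeAlgebra F (Fin 3)) (y : Bs →₀ F),
    FreeAlgebra.lift F (gens F m) (FreeAlgebra.lift F p r) y = 0

/-- HOM: completeness. Template: `Y555.Mag.Alg.halts_of_mem`, `Helper707.Alg.span_le_Jm`. -/
def S_HOM : Prop := S_WCL.{u} → S_GST.{u} → S_PRB.{u} → S_RMG.{u} → S_WFI.{u} → S_LAM.{u} →
  S_GEQ.{u} → S_MAP.{u} → S_EXT.{u} → S_EVM.{u} →
  ∀ (F : Type u) [Field F] [CharZero F] (Y : Sys), 0 < Y.m → ∀ (T : Set (FreeAlgebra F ℕ)),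
  (∀ r ∈ T, ∀ A : ℕ → Matrix (Fin 4) (Fin 4) F, (∀ i, Tri (A i)) → FreeAlgebra.lift F A r = 0) →
  ∀ M, 0 < M → ∀ (w : Bool) (N : ℕ),
  gel F Y (FreeAlgebra.ι F (0 : Fin 3)) (FreeAlgebra.ι F 1) N ∈
    TwoSidedIdeal.span ({fel F Y M (FreeAlgebra.ι F (0 : Fin 3)) (FreeAlgebra.ι F 1)
      (FreeAlgebra.ι F 2)} ∪ vals F T 3 w) → Y.Halts N

/-- MAT: the triangular matrices satisfy the identities of `d × d` matrices, `d ≥ 3`. Template:
`Y555.Mag.Ext.tri_of_mat`. -/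
def S_MAT : Prop := ∀ (F : Type u) [Field F] [CharZero F] (d : ℕ), 3 ≤ d →
  ∀ r : FreeAlgebra F ℕ, (∀ A : ℕ → Matrix (Fin d) (Fin d) F, FreeAlgebra.lift F A r = 0) →
  ∀ A : ℕ → Matrix (Fin 4) (Fin 4) F, (∀ i, Tri (A i)) → FreeAlgebra.lift F A r = 0

/-- STD: the triangular matrices satisfy `s_n`, `n ≥ 6`. Template: `H682R2.StdTri.std_tri`. -/
def S_STD : Prop := ∀ (F : Type u) [Field F] (n : ℕ), 6 ≤ n →
  ∀ A : Fin n → Matrix (Fin 4) (Fin 4) F, (∀ i, Tri (A i)) → std A = 0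

/-- The standard polynomial. -/
def standard (F : Type u) [Field F] (n : ℕ) : FreeAlgebra F ℕ :=
  ∑ σ : Equiv.Perm (Fin n),
    Equiv.Perm.sign σ • (List.ofFn fun i => FreeAlgebra.ι F ((σ i : Fin n) : ℕ)).prod

/-- NZS: the standard polynomials are nonzero (coefficient of the word `x_0 x_1 ⋯`). -/
def S_NZS : Prop := ∀ (F : Type u) [Field F] (n : ℕ), standard F n ≠ 0

/-- MID: `s_{d^2+1}` is an identity of the `d × d` matrices (alternating multilinear, `d^2 + 1`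
elements are linearly dependent; cf. `Helper707.Nil.W_matrix`). -/
def S_MID : Prop := ∀ (F : Type u) [Field F] (d : ℕ) (A : ℕ → Matrix (Fin d) (Fin d) F),
  FreeAlgebra.lift F A (standard F (d * d + 1)) = 0

/-- GLW: the words as explicit lists, primitive recursive. Template: `Helper707.Words`. -/
def S_GLW : Prop := ∃ gl : ℕ → ℕ → List (Bool × Fin 3 × List (Fin 3)), (∀ m, Primrec (gl m)) ∧
  ∀ (F : Type u) [Field F] [CharZero F] (B : Type u) [Ring B] [Algebra F B] (z : Fin 3 → B)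
    (Y : Sys) (N : ℕ),
    ((gl Y.m N).map fun t => (if t.1 then (1 : B) else -1) *
      (z t.2.1 * (t.2.2.map z).prod)).sum = gel F Y (z 0) (z 1) N

end Pool.Agent.Helper8.MG
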