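import Mathlib
import Pool.Agent.Helper8.MG.Parts

/-!
The word of a halting number vanishes.
-/

namespace Pool.Agent.Helper8.MG

open Finset
open Pool.Agent.Helper707.Rel (Sys)

universe u

section

variable {B : Type u} [Ring B] {Y : Sys} {e : V → B} {x y : B}

theorem Rels.transfer (h : Rels Y e x y) {i : ℕ} (hi : i < 2 * Y.m) {j : Col}
    (hj : j ∈ cols Y.m) (w : B) (n k n' : ℕ) :
    Wd e x w i j (n + A Y i j * k) n' = Wd e x w i j n (n' + k) := by
  induction k generalizing n' with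
  | zero => simp
  | succ k ih =>
    have h2 := h.T i hi j hj
    have step : ∀ n n' : ℕ, Wd e x w i j (n + A Y i j) n' = Wd e x w i j n (n' + 1) := by
      intro n n'
      unfold Wd
      rw [pow_add, pow_succ' (K e x (.c j) (.c j)) n']
      have : K e x .al (.b i) * (K e x (.b i) (.b i) ^ n * K e x (.b i) (.b i) ^ A Y i j)
            * K e x (.b i) (.c j)
          = K e x .al (.b i) * K e x (.b i) (.b i) ^ n
              * (K e x (.b i) (.b i) ^ A Y i j * K e x (.b i) (.c j)) := by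
        simp only [mul_assoc]
      rw [this, h2]
      simp only [mul_assoc]
    rw [mul_add, mul_one, ← add_assoc, step, ih (n' + 1)]
    congr 1
    omega

theorem Rels.row (h : Rels Y e x y) {i : ℕ} (hi : i < 2 * Y.m) (w : B) (n : ℕ) :
    Wd e x w i (.k i) n 0 + Wd e x w i (.k (i + 1)) n 0 = Wd e x w i (.d (i / 2)) n 0 := by
  have h2 := congrArg (fun t => K e x .al (.b i) * K e x (.b i) (.b i) ^ n * t * w) (h.Rw i hi)
  simp only [mul_add, add_mul, ← mul_assoc] at h2
  unfold Wd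
  simp only [pow_zero, mul_one]
  exact h2

theorem Wd_ty (w w' : B) (i : ℕ) (j : Col) (n n' : ℕ)
    (h : K e x (.c j) .al * w = K e x (.c j) .al * w') :
    Wd e x w i j n n' = Wd e x w' i j n n' := by
  unfold Wd
  rw [mul_assoc _ (K e x (.c j) .al) w, h, ← mul_assoc]

theorem Wd_zero (w : B) (i : ℕ) (j : Col) (n n' : ℕ)
    (h : K e x (.c j) .al * w = 0) : Wd e x w i j n n' = 0 := by
  unfold Wd
  rw [mul_assoc _ (K e x (.c j) .al) w, h, mul_zero]

theorem Rels.even (h : Rels Y e x y) {l : ℕ} (hl : l < 2 * Y.m + 1) (h2 : l % 2 = 0)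
    (i n n' : ℕ) : Wd e x (K e x .al .al) i (.k l) n n' = 0 := by
  apply Wd_zero
  have h3 := h.Ty (.k l) (mem_k.2 hl)
  simpa [ty, h2] using h3

theorem Rels.odd (h : Rels Y e x y) {l : ℕ} (hl : l < 2 * Y.m + 1) (h2 : ¬ l % 2 = 0)
    (i n n' : ℕ) : Wd e x (K e y .al .al) i (.k l) n n' = 0 := by
  apply Wd_zero
  have h3 := h.Ty (.k l) (mem_k.2 hl)
  rw [ty, if_neg h2] at h3
  exact h3

theorem Rels.dd (h : Rels Y e x y) {r : ℕ} (hr : r < Y.m) (i n n' : ℕ) :
    Wd e x (K e y .al .al) i (.d r) n n' = Wd e x (K e x .al .al) i (.d r) n n' := by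
  apply Wd_ty
  have h3 := h.Ty (.d r) (mem_d.2 hr)
  simp only [ty, mul_sub] at h3
  exact (sub_eq_zero.1 h3).symm

theorem Rels.ck (h : Rels Y e x y) {i : ℕ} (hi : i + 1 < 2 * Y.m) (w : B) (n' : ℕ) :
    Wd e x w i (.k (i + 1)) 0 n' = Wd e x w (i + 1) (.k (i + 1)) 0 n' := by
  unfold Wd
  simp only [pow_zero, mul_one]
  rw [h.Ck i hi]

theorem Rels.cd (h : Rels Y e x y) {r : ℕ} (hr : r < Y.m) (w : B) (n' : ℕ) :
    Wd e x w (2 * r) (.d r) r n' = kap Y r • Wd e x w (2 * r + 1) (.d r) (Y.e r) n' := by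
  unfold Wd
  rw [h.Cd r hr]
  simp only [smul_mul_assoc]

/-- the hub word -/
def Hb (e : V → B) (x : B) (i N : ℕ) : B := Wd e x (K e x .al .al) i (.d (i / 2)) N 0

/-- the surviving loop -/
def sv (e : V → B) (x y : B) (l : ℕ) : B := if l % 2 = 0 then K e y .al .al else K e x .al .al

theorem Rels.right (h : Rels Y e x y) {i : ℕ} (hi : i < 2 * Y.m) (N : ℕ) :
    Wd e x (sv e x y (i + 1)) i (.k (i + 1)) N 0 = Hb e x i N := by
  unfold sv Hb
  by_cases h0 : i % 2 = 0
  · rw [if_neg (by omega), ← h.row hi, h.even (by omega) h0, zero_add]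
  · rw [if_pos (by omega)]
    have h1 := h.row hi (K e y .al .al) N
    rw [h.odd (by omega) h0, zero_add, h.dd (by omega)] at h1
    exact h1

theorem Rels.left (h : Rels Y e x y) {i : ℕ} (hi : i < 2 * Y.m) (N : ℕ) :
    Wd e x (sv e x y i) i (.k i) N 0 = Hb e x i N := by
  unfold sv Hb
  by_cases h0 : i % 2 = 0
  · rw [if_pos h0]
    have h1 := h.row hi (K e y .al .al) N
    rw [h.odd (l := i + 1) (by omega) (by omega), add_zero, h.dd (by omega)] at h1
    exact h1
  · rw [if_neg h0, ← h.row hi, h.even (l := i + 1) (by omega) (by omega), add_zero]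

theorem Rels.next_row (h : Rels Y e x y) {i : ℕ} (hi : i + 1 < 2 * Y.m) (N : ℕ) :
    Hb e x i N = Hb e x (i + 1) N := by
  rw [← h.right (by omega), ← h.left hi]
  have t1 := h.transfer (i := i) (by omega) (j := .k (i + 1)) (mem_k.2 (by omega))
    (sv e x y (i + 1)) 0 N 0
  have t2 := h.transfer (i := i + 1) (by omega) (j := .k (i + 1)) (mem_k.2 (by omega))
    (sv e x y (i + 1)) 0 N 0
  have e1 : A Y i (.k (i + 1)) = 1 := rfl
  have e2 : A Y (i + 1) (.k (i + 1)) = 1 := rfl
  rw [e1, one_mul, zero_add] at t1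
  rw [e2, one_mul, zero_add] at t2
  rw [t1, t2]
  exact h.ck hi _ _

theorem Rels.chain (h : Rels Y e x y) {i : ℕ} (hi : i < 2 * Y.m) (N : ℕ) :
    Hb e x 0 N = Hb e x i N := by
  induction i with
  | zero => rfl
  | succ i ih => rw [ih (by omega), h.next_row hi]

theorem Rels.collatz (h : Rels Y e x y) {r : ℕ} (hr : r < Y.m) (k : ℕ) :
    Hb e x 0 (r + Y.m * k) = kap Y r • Hb e x 0 (Y.a r * k + Y.e r) := by
  rw [h.chain (i := 2 * r) (by omega), h.chain (i := 2 * r + 1) (by omega) (Y.a r * k + Y.e r)]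
  unfold Hb
  have e0 : 2 * r / 2 = r := by omega
  have e1 : (2 * r + 1) / 2 = r := by omega
  rw [e0, e1]
  have t1 := h.transfer (i := 2 * r) (by omega) (j := .d r) (mem_d.2 hr)
    (K e x .al .al) r k 0
  have t2 := h.transfer (i := 2 * r + 1) (by omega) (j := .d r) (mem_d.2 hr)
    (K e x .al .al) (Y.e r) k 0
  have a1 : A Y (2 * r) (.d r) = Y.m := by simp [A]
  have a2 : A Y (2 * r + 1) (.d r) = Y.a r := by
    simp only [A]
    rw [if_neg (by omega), e1]
  rw [a1] at t1
  rw [a2] at t2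
  rw [t1, add_comm (Y.a r * k), t2, h.cd hr]

theorem Rels.halts_zero (h : Rels Y e x y) (hm : 0 < Y.m) (N : ℕ) (hN : Y.Halts N) :
    Hb e x 0 N = 0 := by
  induction hN with
  | halt N hH =>
    have h1 := h.collatz (Nat.mod_lt N hm) (N / Y.m)
    rw [Nat.mod_add_div] at h1
    rw [h1, kap, if_pos hH, zero_smul]
  | step N hH _ ih =>
    have h1 := h.collatz (Nat.mod_lt N hm) (N / Y.m)
    rw [Nat.mod_add_div] at h1
    rw [h1, kap, if_neg (by simp [hH]), one_smul]
    exact ih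

end

theorem t_DER : S_DER.{u} := by
  intro Y B _ e x y h _ hm N hN
  exact h.halts_zero hm N hN

end Pool.Agent.Helper8.MG
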