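import Mathlib
import Pool.Agent.Helper8.MG.Parts

/-!
Soundness: the word of a halting number lies in the ideal.
-/

namespace Pool.Agent.Helper8.MG

open Finset Polynomial Pool.Agent.Helper707.Idem
open Pool.Agent.Helper707.Rel (Sys)
open Pool.Agent.Y555.Mag.Alg (vals NilExp lift_lift)
open Pool.Agent.H682R2.StdNil (std aug)

universe u

section mem

variable {F : Type u} [Field F] [CharZero F]

theorem ty_mem {B : Type*} [Ring B] (I : TwoSidedIdeal B) (e : V → B) {x y : B} (hx : x ∈ I)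
    (hy : y ∈ I) (j : Col) : ty e x y j ∈ I := by
  have hK : ∀ p q, K e x p q ∈ I := fun p q => I.mul_mem_right _ _ (I.mul_mem_left _ _ hx)
  have hK' : ∀ p q, K e y p q ∈ I := fun p q => I.mul_mem_right _ _ (I.mul_mem_left _ _ hy)
  cases j with
  | k i =>
    simp only [ty]
    split_ifs
    · exact hK _ _
    · exact hK' _ _
  | d r => exact I.sub_mem (hK _ _) (hK' _ _)

theorem rel_mem {B : Type*} [Ring B] (I : TwoSidedIdeal B) (Y : Sys) (e : V → B) {x y : B}
    (hx : x ∈ I) (hy : y ∈ I) (p q : V) : rel Y e x y p q ∈ I := by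
  have hK : ∀ p q, K e x p q ∈ I := fun p q => I.mul_mem_right _ _ (I.mul_mem_left _ _ hx)
  unfold rel
  split
  · exact I.sub_mem (I.mul_mem_left _ _ (hK _ _)) (I.mul_mem_left _ _ (hK _ _))
  · exact I.sub_mem (I.add_mem (I.mul_mem_left _ _ (hK _ _)) (I.mul_mem_left _ _ (hK _ _)))
      (I.mul_mem_left _ _ (hK _ _))
  · exact I.mul_mem_left _ _ (ty_mem I e hx hy _)
  · split_ifs
    · exact I.sub_mem (I.mul_mem_left _ _ (hK _ _)) (I.mul_mem_left _ _ (hK _ _))
    · exact I.zero_mem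
  · refine I.sub_mem (I.mul_mem_left _ _ (hK _ _)) ?_
    rw [nsmul_eq_mul]
    exact I.mul_mem_left _ _ (I.mul_mem_left _ _ (hK _ _))
  · exact I.zero_mem

theorem tel_mem {B : Type*} [Ring B] [Algebra F B] (I : TwoSidedIdeal B) (Y : Sys) (M : ℕ)
    (z : B) {x y : B} (hx : x ∈ I) (hy : y ∈ I) : tel F Y M z x y ∈ I := by
  unfold tel Theta
  refine sum_mem fun a _ => sum_mem fun b _ => ?_
  exact I.mul_mem_right _ _ (I.mul_mem_left _ _ (rel_mem I Y _ hx hy a b))

omit [CharZero F] in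
theorem lift_mem_aug {a b : FreeAlgebra F (Fin 3)} (ha : a ∈ aug F 3) (hb : b ∈ aug F 3)
    {q : FreeAlgebra F (Fin 2)} (hq : q ∈ aug F 2) :
    FreeAlgebra.lift F ![a, b] q ∈ aug F 3 := by
  have hle : aug F 2 ≤ TwoSidedIdeal.comap (FreeAlgebra.lift F ![a, b]) (aug F 3) := by
    unfold aug
    rw [TwoSidedIdeal.span_le]
    rintro _ ⟨i, rfl⟩
    rw [SetLike.mem_coe, TwoSidedIdeal.mem_comap, FreeAlgebra.lift_ι_apply]
    fin_cases i
    · exact ha
    · exact hb
  exact (TwoSidedIdeal.mem_comap _).1 (hle hq)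

end mem

theorem t_MEM : S_MEM.{u} := by
  intro hROF hDER hGEQ hMAP F _ _ Y hm T g hg M hM hnil w N hN
  set z0 : FreeAlgebra F (Fin 3) := FreeAlgebra.ι F 0 with hz0
  set x0 : FreeAlgebra F (Fin 3) := FreeAlgebra.ι F 1 with hx0
  set y0 : FreeAlgebra F (Fin 3) := FreeAlgebra.ι F 2 with hy0
  set J := TwoSidedIdeal.span ({fel F Y M z0 x0 y0} ∪ vals F T 3 w) with hJ
  set φ : FreeAlgebra F (Fin 3) →ₐ[F] J.ringCon.Quotient := J.ringCon.mkₐ F with hφ
  have hker : ∀ g, φ g = 0 ↔ g ∈ J := by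
    intro g
    have h1 : g ∈ TwoSidedIdeal.ker J.ringCon.mk' ↔ g ∈ J := by
      rw [TwoSidedIdeal.ker_ringCon_mk']
    rw [← h1, TwoSidedIdeal.mem_ker]
    rfl
  obtain ⟨m1, m2, m3⟩ := hMAP F _ _ φ Y M z0 x0 y0
  rw [← hker, m3]
  set z := φ z0
  set x := φ x0
  set y := φ y0
  -- the relation
  have hf : fel F Y M z x y = 0 := by
    rw [← m2, hker]
    exact TwoSidedIdeal.subset_span (Or.inl rfl)
  -- nilpotency
  have hnil' : (aeval z (P F (Rr Y.m))) ^ M = 0 := by
    refine hnil J.ringCon.Quotient z (tel F Y M z x y) ?_ ?_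
    · have : fel F Y M z x y = aeval z (P F (Rr Y.m))
          + (z * tel F Y M z x y - tel F Y M z x y * z) := rfl
      rw [this] at hf
      rw [eq_comm, ← sub_eq_zero, ← hf]
      abel
    · intro q hq
      have hz0a : z0 ∈ aug F 3 := TwoSidedIdeal.subset_span ⟨0, rfl⟩
      have hx0a : x0 ∈ aug F 3 := TwoSidedIdeal.subset_span ⟨1, rfl⟩
      have hy0a : y0 ∈ aug F 3 := TwoSidedIdeal.subset_span ⟨2, rfl⟩
      have h1 : (fun i => FreeAlgebra.lift F ![z, tel F Y M z x y] (q i))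
          = fun i => φ (FreeAlgebra.lift F ![z0, tel F Y M z0 x0 y0] (q i)) := by
        funext i
        have : FreeAlgebra.lift F ![z, tel F Y M z x y]
            = φ.comp (FreeAlgebra.lift F ![z0, tel F Y M z0 x0 y0]) := by
          apply FreeAlgebra.hom_ext
          funext k
          simp only [Function.comp_apply, FreeAlgebra.lift_ι_apply, AlgHom.comp_apply]
          fin_cases k
          · rfl
          · exact m1.symm
        rw [this]; rfl
      rw [h1, ← lift_lift]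
      refine (hker _).2 (TwoSidedIdeal.subset_span (Or.inr ?_))
      exact ⟨g, hg, _, fun _ i => lift_mem_aug hz0a (tel_mem _ Y M z0 hx0a hy0a) (hq i), rfl⟩
  obtain ⟨hrel, hP⟩ := single_relation (S := S Y.m) (num := num) (M := M) (F := F)
    (fun a _ b _ h => num_inj h) (fun a ha => num_le ha) hnil' (rel Y (el F Y M z) x y) hf
  have he : ∀ p ∈ S Y.m, el F Y M z p * el F Y M z p = el F Y M z p :=
    fun p hp => ee_mul_self hnil' (num_le hp)
  have hR : Rels Y (el F Y M z) x y := hROF Y _ _ _ _ he hrel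
  obtain ⟨s, _, hs⟩ := hGEQ F _ Y hm M hM z x hP N
  rw [hs, hDER Y _ _ _ _ hR he hm N hN, smul_zero]

end Pool.Agent.Helper8.MG
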