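import Mathlib
import Pool.Agent.Helper8.MG.Parts

/-!
The relations from the sandwiched relators.
-/

namespace Pool.Agent.Helper8.MG

open Finset
open Pool.Agent.Helper707.Rel (Sys)

universe u

section

variable {B : Type u} [Ring B]

theorem e_mul_K {e : V → B} {x : B} {p : V} (h : e p * e p = e p) (q : V) :
    e p * K e x p q = K e x p q := by
  unfold K; rw [← mul_assoc, ← mul_assoc, h]

theorem K_mul_e {e : V → B} {x : B} {q : V} (h : e q * e q = e q) (p : V) :
    K e x p q * e q = K e x p q := by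
  unfold K; rw [mul_assoc, h]

theorem e_mul_Kpow {e : V → B} {x : B} {p : V} (h : e p * e p = e p) (q : V) (n : ℕ) :
    e p * (K e x p p ^ n * K e x p q) = K e x p p ^ n * K e x p q := by
  cases n with
  | zero => rw [pow_zero, one_mul, e_mul_K h]
  | succ n => rw [pow_succ', ← mul_assoc, ← mul_assoc, e_mul_K h]

end

theorem t_ROF : S_ROF.{u} := by
  intro Y B _ e x y he h
  refine ⟨?_, ?_, ?_, ?_, ?_⟩
  · intro i hi j hj
    have h1 := h (.b i) (mem_b.2 hi) (.c j) (mem_c.2 hj) (by simp)
    have ep := he (.b i) (mem_b.2 hi)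
    have eq := he (.c j) (mem_c.2 hj)
    simp only [rel] at h1
    rw [mul_sub, sub_mul, e_mul_Kpow ep, mul_assoc (K e x (.b i) (.b i) ^ _), K_mul_e eq,
      ← mul_assoc, e_mul_K ep, mul_assoc (K e x (.b i) (.c j)), K_mul_e eq, sub_eq_zero] at h1
    exact h1
  · intro i hi
    have h1 := h (.b i) (mem_b.2 hi) .al (mem_al _) (by simp)
    have ep := he (.b i) (mem_b.2 hi)
    have eq := he .al (mem_al _)
    simp only [rel] at h1
    rw [mul_sub, mul_add, sub_mul, add_mul, ← mul_assoc (e (.b i)), e_mul_K ep,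
      ← mul_assoc (e (.b i)), e_mul_K ep, ← mul_assoc (e (.b i)), e_mul_K ep,
      mul_assoc _ (K e x (.c (.k i)) .al), K_mul_e eq,
      mul_assoc _ (K e x (.c (.k (i + 1))) .al), K_mul_e eq,
      mul_assoc _ (K e x (.c (.d (i / 2))) .al), K_mul_e eq, sub_eq_zero] at h1
    exact h1
  · intro j hj
    have h1 := h (.c j) (mem_c.2 hj) .al (mem_al _) (by simp)
    have ep := he (.c j) (mem_c.2 hj)
    have eq := he .al (mem_al _)
    simp only [rel] at h1
    have h2 : ty e x y j * e .al = ty e x y j := by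
      cases j with
      | k i =>
        simp only [ty]
        split_ifs
        · exact K_mul_e eq _
        · exact K_mul_e eq _
      | d r =>
        simp only [ty]
        rw [sub_mul, K_mul_e eq, K_mul_e eq]
    rw [← mul_assoc, e_mul_K ep, mul_assoc, h2] at h1
    exact h1
  · intro i hi
    have hj : Col.k (i + 1) ∈ cols Y.m := mem_k.2 (by omega)
    have h1 := h .al (mem_al _) (.c (.k (i + 1))) (mem_c.2 hj) (by simp)
    have ep := he .al (mem_al _)
    have eq := he (.c (.k (i + 1))) (mem_c.2 hj)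
    simp only [rel] at h1
    rw [if_pos hi, mul_sub, sub_mul, ← mul_assoc (e .al), e_mul_K ep, ← mul_assoc (e .al),
      e_mul_K ep, mul_assoc (K e x .al (.b i)), K_mul_e eq,
      mul_assoc (K e x .al (.b (i + 1))), K_mul_e eq, sub_eq_zero] at h1
    exact h1
  · intro r hr
    have hj : Col.d r ∈ cols Y.m := mem_d.2 hr
    have h1 := h .al (mem_al _) (.c (.d r)) (mem_c.2 hj) (by simp)
    have ep := he .al (mem_al _)
    have eq := he (.c (.d r)) (mem_c.2 hj)
    simp only [rel] at h1
    rw [mul_sub, sub_mul, ← mul_assoc (e .al), ← mul_assoc (e .al), e_mul_K ep,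
      mul_assoc _ (K e x (.b (2 * r)) (.c (.d r))), K_mul_e eq,
      mul_smul_comm, smul_mul_assoc, ← mul_assoc (e .al), ← mul_assoc (e .al), e_mul_K ep,
      mul_assoc _ (K e x (.b (2 * r + 1)) (.c (.d r))), K_mul_e eq, sub_eq_zero] at h1
    exact h1

end Pool.Agent.Helper8.MG
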