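import Mathlib
import Pool.Agent.Helper8.MG.Parts
import Pool.Agent.Helper8.MG.DER
import Pool.Agent.Helper8.MG.ROF
import Pool.Agent.Helper8.MG.MEM
import Pool.Graph.R_seed8.Y555.Mag.Fin

/-!
The main theorem on varieties containing the triangular `4 × 4` matrices with equal corners, from
the statements of the parts.
-/

namespace Pool.Agent.Helper8.MG.FIN

open Finset Polynomial Pool.Agent.Helper707.Idem
open Pool.Agent.Helper707.Rel (Sys)
open Pool.Agent.Y555.Mag.Alg (vals NilExp lift_lift)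
open Pool.Agent.H682R2.StdNil (std aug)
open Pool.Agent.Y555.Mag.Fin (RF gn vl mem_quot)

universe u

theorem main (hMEM : ∀ (F : Type u) [Field F] [CharZero F] (Y : Sys), 0 < Y.m →
      ∀ (T : Set (FreeAlgebra F ℕ)) (g : FreeAlgebra F ℕ), g ∈ T → ∀ M, 0 < M →
      NilExp F g (Rr Y.m) M → ∀ (w : Bool) (N : ℕ),
      Y.Halts N → gel F Y (FreeAlgebra.ι F (0 : Fin 3)) (FreeAlgebra.ι F 1) N ∈
        TwoSidedIdeal.span ({fel F Y M (FreeAlgebra.ι F (0 : Fin 3)) (FreeAlgebra.ι F 1)
          (FreeAlgebra.ι F 2)} ∪ vals F T 3 w))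
    (hHOM : ∀ (F : Type u) [Field F] [CharZero F] (Y : Sys), 0 < Y.m →
      ∀ (T : Set (FreeAlgebra F ℕ)),
      (∀ r ∈ T, ∀ A : ℕ → Matrix (Fin 4) (Fin 4) F, (∀ i, Tri (A i)) →
        FreeAlgebra.lift F A r = 0) →
      ∀ M, 0 < M → ∀ (w : Bool) (N : ℕ),
      gel F Y (FreeAlgebra.ι F (0 : Fin 3)) (FreeAlgebra.ι F 1) N ∈
        TwoSidedIdeal.span ({fel F Y M (FreeAlgebra.ι F (0 : Fin 3)) (FreeAlgebra.ι F 1)
          (FreeAlgebra.ι F 2)} ∪ vals F T 3 w) → Y.Halts N)
    (hGLW : S_GLW.{u})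
    (F : Type u) [Field F] [CharZero F] (T : Set (FreeAlgebra F ℕ))
    (hne : ∃ g ∈ T, g ≠ 0)
    (hT : ∀ r ∈ T, ∀ A : ℕ → Matrix (Fin 4) (Fin 4) F, (∀ i, Tri (A i)) →
      FreeAlgebra.lift F A r = 0) (w : Bool) :
    ∃ f : RF F T 3 w, f ∈ TwoSidedIdeal.span (Set.range (gn F T 3 w)) ∧
      ¬ ComputablePred fun g : List (Bool × Fin 3 × List (Fin 3)) =>
          vl F T 3 w g ∈ TwoSidedIdeal.span {f} := by
  obtain ⟨g0, hg0, hg00⟩ := hne
  obtain ⟨gl, hgl, hval⟩ := hGLW
  obtain ⟨Y, S, p, hm, hund⟩ := Pool.Agent.Helper707.Num.exists_undecidable_sys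
  obtain ⟨M, hM, hnil⟩ := Pool.Agent.Y555.Mag.Nil.exists_nil F hg00 (Rr Y.m)
  set π := (TwoSidedIdeal.span (vals F T 3 w)).ringCon.mk' with hπ
  set z : FreeAlgebra F (Fin 3) := FreeAlgebra.ι F 0 with hz
  set x : FreeAlgebra F (Fin 3) := FreeAlgebra.ι F 1 with hx
  set y : FreeAlgebra F (Fin 3) := FreeAlgebra.ι F 2 with hy
  refine ⟨π (fel F Y M z x y), ?_, ?_⟩
  · set I := TwoSidedIdeal.span (Set.range (gn F T 3 w)) with hI
    have hzI : π z ∈ I := TwoSidedIdeal.subset_span ⟨0, rfl⟩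
    have hP : P F (Rr Y.m)
        = (∏ i ∈ Finset.range (Rr Y.m), (Polynomial.X - Polynomial.C ((i + 1 : ℕ) : F)))
          * Polynomial.X := by
      unfold P
      rw [Finset.prod_range_succ']
      simp
    have h1 : fel F Y M z x y = Polynomial.aeval z (P F (Rr Y.m))
        + (z * tel F Y M z x y - tel F Y M z x y * z) := rfl
    rw [h1, hP, map_mul (Polynomial.aeval z), Polynomial.aeval_X, map_add, map_sub, map_mul,
      map_mul, map_mul]
    exact I.add_mem (I.mul_mem_left _ _ hzI)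
      (I.sub_mem (I.mul_mem_right _ _ hzI) (I.mul_mem_left _ _ hzI))
  · intro hc
    apply hund
    obtain ⟨d, hd, hdp⟩ := ComputablePred.computable_iff.1 hc
    have hpow : Primrec fun k : ℕ => S * p ^ k := by
      have h1 : Primrec fun k : ℕ => p ^ k := by
        have h2 : Primrec (Nat.rec (motive := fun _ => ℕ) 1 (fun _ ih => ih * p)) :=
          Primrec.nat_rec₁ 1 (Primrec.nat_mul.comp Primrec.snd (Primrec.const p))
        refine h2.of_eq fun k => ?_
        induction k with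
        | zero => rfl
        | succ k ih => rw [pow_succ, ← ih]
      exact Primrec.nat_mul.comp (Primrec.const S) h1
    have hglc : Computable fun k : ℕ => gl Y.m (S * p ^ k) :=
      ((hgl Y.m).comp hpow).to_comp
    rw [ComputablePred.computable_iff]
    refine ⟨fun k => d (gl Y.m (S * p ^ k)), hd.comp hglc, ?_⟩
    funext k
    have h3 := congrFun hdp (gl Y.m (S * p ^ k))
    have h4 : vl F T 3 w (gl Y.m (S * p ^ k)) = π (gel F Y z x (S * p ^ k)) := by
      rw [← hval F (FreeAlgebra F (Fin 3)) (FreeAlgebra.ι F : Fin 3 → FreeAlgebra F (Fin 3)) Y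
        (S * p ^ k)]
      unfold vl
      rw [map_list_sum, List.map_map]
      congr 1
      refine List.map_congr_left fun a _ => ?_
      obtain ⟨s, i, v⟩ := a
      simp only [Function.comp_apply, gn, map_mul, map_list_prod, List.map_map]
      cases s
      · simp only [Bool.false_eq_true, if_false, map_neg, map_one]
        rfl
      · simp only [if_true, map_one, one_mul]
        rfl
    rw [← h3, h4, mem_quot]
    exact propext ⟨fun h => hMEM F Y hm T g0 hg0 M hM hnil w _ h,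
      fun h => hHOM F Y hm T hT M hM w _ h⟩

end Pool.Agent.Helper8.MG.FIN
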