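import Mathlib
import Pool.Agent.Helper8.MG.FIN
import Pool.Agent.Helper21.MG.EXT
import Pool.Agent.Helper27.MG.EVM
import Pool.Agent.Helper27.MG.MID
import Pool.Agent.Helper52.MG.STD
import Pool.Agent.Helper56.MG.GLW
import Pool.Agent.Helper9.MG.GEQ
import Pool.Agent.Helper9.MG.HOM
import Pool.Agent.Helper9.MG.MAP
import Pool.Agent.Helper98.MG.Model

/-!
Assembly of the parts.
-/

namespace Pool.Agent.Helper8.MG.All

open Pool.Agent.Y555.Mag.Fin (RF gn vl)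
open Pool.Agent.H682R2.StdNil (std)

universe u

theorem main (F : Type u) [Field F] [CharZero F] (T : Set (FreeAlgebra F ℕ))
    (hne : ∃ g ∈ T, g ≠ 0)
    (hT : ∀ r ∈ T, ∀ A : ℕ → Matrix (Fin 4) (Fin 4) F, (∀ i, Tri (A i)) →
      FreeAlgebra.lift F A r = 0) (w : Bool) :
    ∃ f : RF F T 3 w, f ∈ TwoSidedIdeal.span (Set.range (gn F T 3 w)) ∧
      ¬ ComputablePred fun g : List (Bool × Fin 3 × List (Fin 3)) =>
          vl F T 3 w g ∈ TwoSidedIdeal.span {f} :=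
  FIN.main
    (fun F _ _ => t_MEM t_ROF t_DER Pool.Agent.Helper9.MG.GEQ.t_GEQ Pool.Agent.Helper9.MG.MAP.t_MAP F)
    (fun F _ _ => Pool.Agent.Helper9.MG.HOM.t_HOM t_WCL t_GST t_PRB t_RMG t_WFI t_LAM
      Pool.Agent.Helper9.MG.GEQ.t_GEQ Pool.Agent.Helper9.MG.MAP.t_MAP
      Pool.Agent.Helper21.MG.t_EXT Pool.Agent.Helper27.MG.EVM.t_EVM F)
    Pool.Agent.Helper56.MG.GLW.t_GLW F T hne hT w

theorem standard_ne (F : Type u) [Field F] (n : ℕ) : standard F n ≠ 0 :=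
  Pool.Agent.Helper27.MG.t_NZS F n

theorem standard_mat (F : Type u) [Field F] (d : ℕ) (A : ℕ → Matrix (Fin d) (Fin d) F) :
    FreeAlgebra.lift F A (standard F (d * d + 1)) = 0 :=
  Pool.Agent.Helper27.MG.t_MID F d A

theorem mat (F : Type u) [Field F] [CharZero F] (d : ℕ) (hd : 3 ≤ d) (r : FreeAlgebra F ℕ)
    (h : ∀ A : ℕ → Matrix (Fin d) (Fin d) F, FreeAlgebra.lift F A r = 0)
    (A : ℕ → Matrix (Fin 4) (Fin 4) F) (hA : ∀ i, Tri (A i)) : FreeAlgebra.lift F A r = 0 :=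
  Pool.Agent.Helper21.MG.t_MAT F d hd r h A hA

theorem standard_tri (F : Type u) [Field F] (n : ℕ) (hn : 6 ≤ n)
    (A : ℕ → Matrix (Fin 4) (Fin 4) F) (hA : ∀ i, Tri (A i)) :
    FreeAlgebra.lift F A (standard F n) = 0 := by
  have h1 := Pool.Agent.H682R2.StdNil.std_map
    (FreeAlgebra.lift F A : FreeAlgebra F ℕ →ₐ[F] Matrix (Fin 4) (Fin 4) F).toRingHom
    (fun i : Fin n => FreeAlgebra.ι F (i : ℕ))
  refine h1.trans ?_
  refine Pool.Agent.Helper52.MG.STD.t_STD F n hn _ fun i => ?_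
  have h2 : (FreeAlgebra.lift F A : FreeAlgebra F ℕ →ₐ[F] Matrix (Fin 4) (Fin 4) F).toRingHom
      (FreeAlgebra.ι F (i : ℕ)) = A i := FreeAlgebra.lift_ι_apply _ _
  rw [h2]
  exact hA i

end Pool.Agent.Helper8.MG.All
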